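import Mathlib
import Pool.Graph.R_seed8.R335.MK.Disc

/-!
A mixed Khintchine theorem with a general rate: for almost every `α` there are infinitely many
reduced fractions with denominator `2 ^ j k`, `k` odd, `1 ≤ j ≤ i`, `4 ^ i ≤ k < 4 ^ (i + 1)`, at
distance less than `1 / (16 4 ^ i g(i) 2 ^ j k)` from `α`, if `∑ i / g(i) = ∞`.
-/

set_option autoImplicit false

open MeasureTheory Filter Topology Finset Metric

namespace Pool.Agent.KS6_93.VDC

open Pool.Agent.R335.MK

variable (g : ℕ → ℕ)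

/-- the numerator of the radius at level `i` -/
noncomputable def rh (i : ℕ) : ℝ := 1 / (16 * 4 ^ i * g i)

/-- the radius for the denominator `q` -/
noncomputable def dl (q : ℕ) : ℝ :=
  if 1 ≤ padicValNat 2 q ∧ padicValNat 2 q ≤ Nat.log 4 (q / 2 ^ padicValNat 2 q) then
    rh g (Nat.log 4 (q / 2 ^ padicValNat 2 q)) / q else 0

lemma rh_nonneg (i : ℕ) : 0 ≤ rh g i := by unfold rh; positivity

lemma dl_qf {i : ℕ} {p : ℕ × ℕ} (hp : p ∈ Sh i) : dl g (qf p) = rh g i / qf p := by
  obtain ⟨h1, h2, h3, h4, h5⟩ := mem_Sh hp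
  unfold dl
  rw [quo_qf h5, val_qf h5, log_Sh hp, if_pos ⟨h1, h2⟩]

lemma dl_nonneg (q : ℕ) : 0 ≤ dl g q := by
  unfold dl
  have := rh_nonneg g (Nat.log 4 (q / 2 ^ padicValNat 2 q))
  split_ifs <;> positivity

lemma rh_le_half (i : ℕ) : rh g i ≤ 1 / 2 := by
  unfold rh
  rcases Nat.eq_zero_or_pos (g i) with h | h
  · rw [h]; norm_num
  · have h1 : (1 : ℝ) ≤ g i := by exact_mod_cast h
    have h2 : (1 : ℝ) ≤ 4 ^ i := one_le_pow₀ (by norm_num)
    rw [div_le_div_iff₀ (by positivity) (by norm_num)]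
    nlinarith

lemma dl_tendsto : Tendsto (dl g) atTop (𝓝 0) := by
  have h1 : Tendsto (fun q : ℕ => 1 / (q : ℝ)) atTop (𝓝 0) := tendsto_one_div_atTop_nhds_zero_nat
  refine squeeze_zero (dl_nonneg g) (fun q => ?_) h1
  unfold dl
  split_ifs
  · gcongr
    exact (rh_le_half g _).trans (by norm_num)
  · positivity

/-- the measure of a level from below -/
lemma level_measure {i : ℕ} :
    (i : ℝ) / (64 * g i) ≤
      ∑ p ∈ Sh i, (volume : Measure UnitAddCircle).real (E (qf p) (dl g (qf p))) := by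
  have h1 : ∀ p ∈ Sh i, (volume : Measure UnitAddCircle).real (E (qf p) (dl g (qf p))) =
      rh g i * ((Nat.totient p.2 : ℝ) / p.2) := by
    intro p hp
    obtain ⟨h1, h2, h3, h4, h5⟩ := mem_Sh hp
    have hp0 : 0 < p.2 := by
      have : 1 ≤ 4 ^ i := Nat.one_le_pow _ _ (by norm_num)
      omega
    have hq : 0 < qf p := by unfold qf; positivity
    have hqR : (0 : ℝ) < qf p := by exact_mod_cast hq
    have hpR : (0 : ℝ) < p.2 := by exact_mod_cast hp0
    rw [vol_E hq (dl_nonneg g _)]
    · rw [dl_qf g hp]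
      have h6 : Nat.totient (qf p) = 2 ^ (p.1 - 1) * Nat.totient p.2 := by
        unfold qf
        rw [Nat.totient_mul, Nat.totient_prime_pow Nat.prime_two h1]
        · norm_num
        · exact Nat.Coprime.pow_left _ (Nat.coprime_two_left.2 h5)
      rw [h6]
      have h7 : (qf p : ℝ) = 2 * 2 ^ (p.1 - 1) * p.2 := by
        unfold qf
        push_cast
        rw [← pow_succ', Nat.sub_add_cancel h1]
      rw [h7]
      push_cast
      field_simp
    · rw [dl_qf g hp]
      calc rh g i / qf p ≤ 1 / 2 / qf p := by gcongr; exact rh_le_half g i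
        _ = 1 / (2 * qf p) := by field_simp
  rw [sum_congr rfl h1]
  unfold Sh
  rw [sum_product]
  simp only
  rw [sum_const, Nat.card_Icc, Nat.add_sub_cancel, nsmul_eq_mul, ← mul_sum]
  have h2 := odd_phi i
  have h3 : 0 ≤ rh g i := rh_nonneg g i
  calc (i : ℝ) / (64 * g i) = i * (rh g i * (4 ^ i / 4)) := by
        unfold rh
        rcases Nat.eq_zero_or_pos (g i) with h | h
        · rw [h]; simp
        · have h1 : (0 : ℝ) < g i := by exact_mod_cast h
          field_simp
          ring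
    _ ≤ _ := by gcongr

/-- the total radius of a level from above -/
lemma level_rho {i : ℕ} :
    ∑ p ∈ Sh i, (qf p : ℝ) * dl g (qf p) ≤ 3 / 16 * ((i : ℝ) / g i) := by
  have h1 : ∀ p ∈ Sh i, (qf p : ℝ) * dl g (qf p) = rh g i := by
    intro p hp
    obtain ⟨h1, h2, h3, h4, h5⟩ := mem_Sh hp
    have hp0 : 0 < p.2 := by
      have : 1 ≤ 4 ^ i := Nat.one_le_pow _ _ (by norm_num)
      omega
    have hqR : (0 : ℝ) < qf p := by
      have : 0 < qf p := by unfold qf; positivity
      exact_mod_cast this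
    rw [dl_qf g hp]
    field_simp
  rw [sum_congr rfl h1, sum_const, nsmul_eq_mul]
  unfold Sh
  rw [card_product, Nat.card_Icc, Nat.add_sub_cancel]
  push_cast
  have h2 := card_odd_le i
  have h3 : 0 ≤ rh g i := rh_nonneg g i
  calc (i : ℝ) * (((Ico (4 ^ i) (4 ^ (i + 1))).filter Odd).card : ℝ) * rh g i ≤
      i * (3 * 4 ^ i) * rh g i := by
        gcongr
    _ = _ := by
        unfold rh
        rcases Nat.eq_zero_or_pos (g i) with h | h
        · rw [h]; simp
        · have h1 : (0 : ℝ) < g i := by exact_mod_cast h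
          field_simp

/-- **Mixed Khintchine theorem**, general rate. -/
theorem khin (hdiv : Tendsto (fun m => ∑ i ∈ range m, (i : ℝ) / g i) atTop atTop) :
    ∀ᵐ x : UnitAddCircle, x ∈ addWellApproximable UnitAddCircle (dl g) := by
  classical
  rcases AddCircle.addWellApproximable_ae_empty_or_univ (T := 1) (dl g) (dl_tendsto g) with h | h
  swap
  · exact h
  exfalso
  -- the tails
  set W : ℕ → Set UnitAddCircle := fun n => ⋃ q, ⋃ (_ : n ≤ q ∧ 0 < q), E q (dl g q) with hW
  have hWm : ∀ n, MeasurableSet (W n) := fun n =>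
    MeasurableSet.iUnion fun q => MeasurableSet.iUnion fun _ => meas_E q _
  have hanti : Antitone W := by
    intro a b hab x hx
    simp only [hW, Set.mem_iUnion] at hx ⊢
    obtain ⟨q, ⟨h1, h2⟩, h3⟩ := hx
    exact ⟨q, ⟨by omega, h2⟩, h3⟩
  have hlow : ∀ n, (1 / 184320 : ℝ) ≤ (volume : Measure UnitAddCircle).real (W n) := by
    intro n
    set I := n + 1 with hI
    -- choose the end of the block
    obtain ⟨J, hJ1, hJ2⟩ : ∃ J, I ≤ J ∧ (64 : ℝ) ≤ ∑ i ∈ Ico I J, (i : ℝ) / g i := by
      have h2 := (tendsto_atTop.1 hdiv) (64 + ∑ i ∈ range I, (i : ℝ) / g i)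
      obtain ⟨m, hm1, hm2⟩ := (h2.and (eventually_ge_atTop I)).exists
      refine ⟨m, hm2, ?_⟩
      have h4 : ∑ i ∈ range m, (i : ℝ) / g i =
          ∑ i ∈ range I, (i : ℝ) / g i + ∑ i ∈ Ico I m, (i : ℝ) / g i :=
        (sum_range_add_sum_Ico _ hm2).symm
      linarith
    set B : Finset (ℕ × ℕ) := (Ico I J).biUnion Sh with hB
    have hdis : Set.PairwiseDisjoint (↑(Ico I J) : Set ℕ) Sh := by
      intro a _ b _ hab
      rw [Function.onFun, Finset.disjoint_left]
      intro p hp1 hp2
      exact hab ((log_Sh hp1).symm.trans (log_Sh hp2))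
    have hBodd : ∀ p ∈ B, Odd p.2 ∧ 0 < qf p ∧ n ≤ qf p := by
      intro p hp
      obtain ⟨i, hi, hp⟩ := mem_biUnion.1 hp
      obtain ⟨h1, h2, h3, h4, h5⟩ := mem_Sh hp
      have h6 : i < 4 ^ i := Nat.lt_pow_self (by norm_num)
      have h7 : I ≤ i := (mem_Ico.1 hi).1
      have h8 : p.2 ≤ qf p := by
        unfold qf
        exact Nat.le_mul_of_pos_left _ (by positivity)
      exact ⟨h5, by omega, by omega⟩
    set S := ∑ p ∈ B, (volume : Measure UnitAddCircle).real (E (qf p) (dl g (qf p))) with hS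
    set R := ∑ p ∈ B, (qf p : ℝ) * dl g (qf p) with hR
    set H := ∑ i ∈ Ico I J, (i : ℝ) / g i with hH
    have hSlow : H / 64 ≤ S := by
      rw [hS, hB, sum_biUnion hdis, hH, sum_div]
      refine sum_le_sum fun i hi => ?_
      refine le_trans (le_of_eq ?_) (level_measure g (i := i))
      rw [div_div, mul_comm]
    have hRup : R ≤ 3 / 16 * H := by
      rw [hR, hB, sum_biUnion hdis, hH, mul_sum]
      exact sum_le_sum fun i hi => level_rho g (i := i)
    have hR0 : 0 ≤ R := sum_nonneg fun p _ => mul_nonneg (Nat.cast_nonneg _) (dl_nonneg g _)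
    have hSup : S ≤ 2 * R := by
      rw [hS, hR, mul_sum]
      refine sum_le_sum fun p hp => ?_
      obtain ⟨_, h2, _⟩ := hBodd p hp
      unfold E
      refine (measureReal_biUnion_finset_le _ _).trans ?_
      calc ∑ a ∈ num (qf p), (volume : Measure UnitAddCircle).real
              (ball (pt (qf p) a) (dl g (qf p)))
          ≤ ∑ a ∈ num (qf p), 2 * dl g (qf p) :=
            sum_le_sum fun a _ => vol_ball_le _ (dl_nonneg g _)
        _ = (Nat.totient (qf p)) * (2 * dl g (qf p)) := by rw [sum_const, card_num, nsmul_eq_mul]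
        _ ≤ (qf p : ℝ) * (2 * dl g (qf p)) := by
            apply mul_le_mul_of_nonneg_right
            · exact_mod_cast Nat.totient_le _
            · have := dl_nonneg g (qf p)
              linarith
        _ = _ := by ring
    have hQ : ∑ p ∈ B, ∑ p' ∈ B, (volume : Measure UnitAddCircle).real
        (E (qf p) (dl g (qf p)) ∩ E (qf p') (dl g (qf p'))) ≤ 2 * R + 8 * R ^ 2 := by
      have h1 : ∀ p ∈ B, ∑ p' ∈ B, (volume : Measure UnitAddCircle).real
          (E (qf p) (dl g (qf p)) ∩ E (qf p') (dl g (qf p'))) ≤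
          (volume : Measure UnitAddCircle).real (E (qf p) (dl g (qf p))) +
            8 * ((qf p : ℝ) * dl g (qf p)) * R := by
        intro p hp
        rw [← add_sum_erase _ _ hp, Set.inter_self]
        have h2 : ∑ p' ∈ B.erase p, (volume : Measure UnitAddCircle).real
            (E (qf p) (dl g (qf p)) ∩ E (qf p') (dl g (qf p'))) ≤
            ∑ p' ∈ B, 8 * ((qf p : ℝ) * dl g (qf p)) * ((qf p' : ℝ) * dl g (qf p')) := by
          calc _ ≤ ∑ p' ∈ B.erase p, 8 * ((qf p : ℝ) * dl g (qf p)) *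
                ((qf p' : ℝ) * dl g (qf p')) := by
                refine sum_le_sum fun p' hp' => ?_
                obtain ⟨h3, h4, _⟩ := hBodd p hp
                obtain ⟨h5, h6, _⟩ := hBodd p' (mem_of_mem_erase hp')
                exact overlap h4 h6 (fun h => (ne_of_mem_erase hp') (qf_inj h5 h3 h.symm))
                  (dl_nonneg g _) (dl_nonneg g _)
            _ ≤ _ := sum_le_sum_of_subset_of_nonneg (erase_subset _ _) fun p' _ _ => by
                have h3 := dl_nonneg g (qf p)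
                have h4 := dl_nonneg g (qf p')
                positivity
        rw [← mul_sum] at h2
        linarith
      calc _ ≤ ∑ p ∈ B, ((volume : Measure UnitAddCircle).real (E (qf p) (dl g (qf p))) +
            8 * ((qf p : ℝ) * dl g (qf p)) * R) := sum_le_sum h1
        _ = S + 8 * R * R := by
            rw [sum_add_distrib, ← sum_mul, ← mul_sum]
        _ ≤ _ := by nlinarith
    have hC := chung (μ := (volume : Measure UnitAddCircle)) B (fun p => E (qf p) (dl g (qf p)))
      (fun p => meas_E _ _)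
    have hsub : (⋃ p ∈ B, E (qf p) (dl g (qf p))) ⊆ W n := by
      intro x hx
      simp only [Set.mem_iUnion, exists_prop] at hx
      obtain ⟨p, hp, hxp⟩ := hx
      obtain ⟨_, h2, h3⟩ := hBodd p hp
      simp only [hW, Set.mem_iUnion]
      exact ⟨qf p, ⟨h3, h2⟩, hxp⟩
    have hmono := measureReal_mono (μ := (volume : Measure UnitAddCircle)) hsub (measure_ne_top _ _)
    set u := (volume : Measure UnitAddCircle).real (⋃ p ∈ B, E (qf p) (dl g (qf p))) with hu
    have hu0 : 0 ≤ u := measureReal_nonneg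
    have h1 : S ^ 2 ≤ (2 * R + 8 * R ^ 2) * u := hC.trans (mul_le_mul_of_nonneg_right hQ hu0)
    -- numbers
    have hHpos : 64 ≤ H := hJ2
    have h2 : H ^ 2 / 4096 ≤ S ^ 2 := by
      have : H ^ 2 / 4096 = (H / 64) ^ 2 := by ring
      rw [this]
      exact pow_le_pow_left₀ (by linarith) hSlow 2
    have h3 : 2 * R + 8 * R ^ 2 ≤ H ^ 2 := by
      nlinarith
    have h4 : H ^ 2 / 4096 ≤ H ^ 2 * u := by
      calc H ^ 2 / 4096 ≤ (2 * R + 8 * R ^ 2) * u := h2.trans h1
        _ ≤ H ^ 2 * u := mul_le_mul_of_nonneg_right h3 hu0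
    have h5 : 1 / 4096 ≤ u := by
      have h6 : H ^ 2 * (1 / 4096) ≤ H ^ 2 * u := by linarith
      exact le_of_mul_le_mul_left h6 (by positivity)
    linarith
  -- the intersection of the tails is null
  have hinter : (⋂ n, W n) ⊆ addWellApproximable UnitAddCircle (dl g) := by
    intro x hx
    rw [UnitAddCircle.mem_addWellApproximable_iff]
    intro hfin
    obtain ⟨b, hb⟩ := hfin.bddAbove
    have h1 := Set.mem_iInter.1 hx (b + 1)
    simp only [hW, Set.mem_iUnion] at h1
    obtain ⟨q, ⟨h2, h3⟩, h4⟩ := h1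
    rw [← E_eq h3, UnitAddCircle.mem_approxAddOrderOf_iff h3] at h4
    have h5 := hb h4
    omega
  have hnull : (volume : Measure UnitAddCircle) (⋂ n, W n) = 0 := by
    apply measure_mono_null hinter
    rw [ae_iff] at h
    simpa using h
  have hlim : Tendsto (fun n => (volume : Measure UnitAddCircle) (W n)) atTop
      (𝓝 ((volume : Measure UnitAddCircle) (⋂ n, W n))) :=
    tendsto_measure_iInter_atTop (fun n => (hWm n).nullMeasurableSet) hanti ⟨0, measure_ne_top _ _⟩
  rw [hnull] at hlim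
  have h6 : ∀ n, ENNReal.ofReal (1 / 184320) ≤ (volume : Measure UnitAddCircle) (W n) := by
    intro n
    have := hlow n
    rw [measureReal_def] at this
    exact ENNReal.ofReal_le_of_le_toReal this
  have h7 : ENNReal.ofReal (1 / 184320) ≤ 0 := ge_of_tendsto' hlim h6
  have h8 : (0 : ENNReal) < ENNReal.ofReal (1 / 184320) := ENNReal.ofReal_pos.2 (by norm_num)
  exact absurd (h8.trans_le h7) (lt_irrefl _)

/-- no point in a box -/
lemma empty_box {α : ℝ} {j k i : ℕ} {A : ℤ} (hk : 0 < k) (hki : k < 4 ^ (i + 1)) (hg : 1 ≤ g i)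
    (h : |α - (A : ℝ) / ((2 ^ j * k : ℕ) : ℝ)| < rh g i / ((2 ^ j * k : ℕ) : ℝ)) {n : ℕ}
    (hn : n < 2 ^ j * k * g i) (hv : vdc n < 1 / 2 ^ j) (h1 : 1 / (4 * (k : ℝ)) ≤ Int.fract (n * α))
    (h2 : Int.fract (n * α) < 3 / (4 * (k : ℝ))) : False := by
  obtain ⟨m, rfl⟩ := dvd_of_vdc hv
  have hkR : (0 : ℝ) < k := by exact_mod_cast hk
  have hpos : 0 < 2 ^ j := by positivity
  have hm : m < k * g i := by
    have : 2 ^ j * m < 2 ^ j * (k * g i) := by
      calc 2 ^ j * m < 2 ^ j * k * g i := hn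
        _ = _ := by ring
    exact lt_of_mul_lt_mul_left this (by positivity)
  have hmR : (m : ℝ) ≤ k * g i := by exact_mod_cast hm.le
  set θ : ℝ := 2 ^ j * α - A / k with hθ
  have hθ1 : |θ| < rh g i / k := by
    have e : θ = 2 ^ j * (α - (A : ℝ) / ((2 ^ j * k : ℕ) : ℝ)) := by
      rw [hθ]
      push_cast
      field_simp
    rw [e, abs_mul, abs_of_pos (by positivity : (0 : ℝ) < 2 ^ j)]
    calc (2 : ℝ) ^ j * |α - (A : ℝ) / ((2 ^ j * k : ℕ) : ℝ)| <
        2 ^ j * (rh g i / ((2 ^ j * k : ℕ) : ℝ)) :=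
          mul_lt_mul_of_pos_left h (by positivity)
      _ = rh g i / k := by
          push_cast
          field_simp
  have hgR : (1 : ℝ) ≤ g i := by exact_mod_cast hg
  have h4k : (k : ℝ) < 4 * 4 ^ i := by
    have : (k : ℝ) < 4 ^ (i + 1) := by exact_mod_cast hki
    rw [pow_succ] at this
    linarith
  have hmθ : |(m : ℝ) * θ| < 1 / (4 * k) := by
    rw [abs_mul, Nat.abs_cast]
    calc (m : ℝ) * |θ| ≤ (k * g i) * (rh g i / k) := by
          apply mul_le_mul hmR hθ1.le (abs_nonneg _) (by positivity)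
      _ = 1 / (4 * (4 * 4 ^ i)) := by
          unfold rh
          field_simp
          norm_num
      _ < 1 / (4 * k) := by
          apply one_div_lt_one_div_of_lt (by positivity)
          linarith
  have hval : (((2 ^ j * m : ℕ)) : ℝ) * α = m * A / k + m * θ := by
    rw [hθ]
    push_cast
    field_simp
    ring
  set s : ℤ := m * A - k * ⌊(((2 ^ j * m : ℕ)) : ℝ) * α⌋ with hs
  have hfr : Int.fract ((((2 ^ j * m : ℕ)) : ℝ) * α) = s / k + m * θ := by
    have h3 := Int.self_sub_floor ((((2 ^ j * m : ℕ)) : ℝ) * α)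
    rw [← h3, hs]
    push_cast
    push_cast at hval
    rw [hval]
    field_simp
    ring
  rw [hfr] at h1 h2
  have h3 := abs_lt.1 hmθ
  have h5 : (0 : ℝ) < (s : ℝ) / k := by linarith
  have h6 : (s : ℝ) / k < 1 / k := by
    have : (1 : ℝ) / k = 3 / (4 * k) + 1 / (4 * k) := by
      field_simp
      norm_num
    linarith
  have h7 : (0 : ℝ) < s := by
    by_contra h8
    push Not at h8
    have := div_nonpos_of_nonpos_of_nonneg h8 hkR.le
    linarith
  have h8 : (s : ℝ) < 1 := by
    by_contra h9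
    push Not at h9
    have := div_le_div_of_nonneg_right h9 hkR.le
    linarith
  have h9 : 0 < s := by exact_mod_cast h7
  have h10 : s < 1 := by exact_mod_cast h8
  omega

/-- good approximations from the mixed Khintchine theorem -/
lemma good_approx {α : ℝ}
    (h : ((α : ℝ) : UnitAddCircle) ∈ addWellApproximable UnitAddCircle (dl g)) (Q : ℕ) :
    ∃ j k i : ℕ, ∃ A : ℤ, Q ≤ 2 ^ j * k ∧ 4 ^ i ≤ k ∧ k < 4 ^ (i + 1) ∧ 1 ≤ i ∧ j ≤ i ∧
      |α - (A : ℝ) / ((2 ^ j * k : ℕ) : ℝ)| < rh g i / ((2 ^ j * k : ℕ) : ℝ) := by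
  rw [UnitAddCircle.mem_addWellApproximable_iff] at h
  obtain ⟨q, hq, hQ⟩ := h.exists_gt Q
  obtain ⟨m, hm, hgcd, hlt⟩ := hq
  have hq0 : 0 < q := by omega
  have hpos : 0 < dl g q := lt_of_le_of_lt (norm_nonneg _) hlt
  unfold dl at hpos hlt
  split_ifs at hpos hlt with hc
  · set j := padicValNat 2 q with hj
    set k := q / 2 ^ j with hk
    set i := Nat.log 4 k with hi
    have hqk : 2 ^ j * k = q := Nat.mul_div_cancel' pow_padicValNat_dvd
    have hk0 : 0 < k := Nat.pos_of_ne_zero (by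
      intro h0
      rw [h0, mul_zero] at hqk
      omega)
    rw [← AddCircle.coe_sub, UnitAddCircle.norm_eq] at hlt
    refine ⟨j, k, i, m + q * round (α - (m : ℝ) / q), by omega, Nat.pow_log_le_self 4 (by omega),
      Nat.lt_pow_succ_log_self (by norm_num) _, by omega, hc.2, ?_⟩
    rw [hqk]
    have hqR : (0 : ℝ) < q := by exact_mod_cast hq0
    have e : α - ((m + q * round (α - (m : ℝ) / q) : ℤ) : ℝ) / q =
        α - (m : ℝ) / q - round (α - (m : ℝ) / q) := by
      push_cast
      field_simp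
      ring
    rw [e]
    exact hlt
  · exact absurd hpos (lt_irrefl _)

end Pool.Agent.KS6_93.VDC
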